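import Pool.Agent.Helper81.BD.GP1
import Pool.Agent.Helper4.BD.GH1
import Pool.Agent.Helper66.BD.GH2

/-!
# Module GH3: hub lemma for drawings
-/

set_option autoImplicit false

noncomputable section

open Finset Helper5.CR Classical Equiv Equiv.Perm

namespace Helper5.BD

variable {V E : Type} [Fintype E] {src tgt : E → V}

namespace GH3

/-- the other end of the edge `(i, s)` -/
def tg {ι V : Type} (b c : ι → V) (p : ι × Bool) : V := if p.2 then c p.1 else b p.1

lemma tg_ne {ι V : Type} {r b c : ι → V} (hrb : ∀ i j, r i ≠ b j) (hrc : ∀ i j, r i ≠ c j)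
    (i : ι) (p : ι × Bool) : r i ≠ tg b c p := by
  obtain ⟨j, s⟩ := p
  cases s
  · exact hrb i j
  · exact hrc i j

/-- the edge `(i, s)` of the drawing -/
def kp {ι E : Type} (eb ec : ι → E) (p : ι × Bool) : E := if p.2 then ec p.1 else eb p.1

lemma kp_ends {ι : Type} {r b c : ι → V} {eb ec : ι → E}
    (heb : ∀ i, (src (eb i) = r i ∧ tgt (eb i) = b i) ∨ (src (eb i) = b i ∧ tgt (eb i) = r i))
    (hec : ∀ i, (src (ec i) = r i ∧ tgt (ec i) = c i) ∨ (src (ec i) = c i ∧ tgt (ec i) = r i))
    (p : ι × Bool) :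
    (src (kp eb ec p) = r p.1 ∧ tgt (kp eb ec p) = tg b c p) ∨
      (src (kp eb ec p) = tg b c p ∧ tgt (kp eb ec p) = r p.1) := by
  obtain ⟨j, s⟩ := p
  cases s
  · exact heb j
  · exact hec j

lemma tg_flip {ι V : Type} {b c : ι → V} (hbc : ∀ i, b i ≠ c i) (i : ι) (s : Bool) :
    tg b c (i, s) ≠ tg b c (i, !s) := by
  cases s
  · exact hbc i
  · exact (hbc i).symm

lemma kp_inj {ι : Type} {r b c : ι → V} {eb ec : ι → E}
    (heb : ∀ i, (src (eb i) = r i ∧ tgt (eb i) = b i) ∨ (src (eb i) = b i ∧ tgt (eb i) = r i))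
    (hec : ∀ i, (src (ec i) = r i ∧ tgt (ec i) = c i) ∨ (src (ec i) = c i ∧ tgt (ec i) = r i))
    (hr : Function.Injective r) (hrb : ∀ i j, r i ≠ b j) (hrc : ∀ i j, r i ≠ c j)
    (hbc : ∀ i, b i ≠ c i) : Function.Injective (kp eb ec) := by
  intro p q hpq
  have key : r p.1 = r q.1 ∧ tg b c p = tg b c q := by
    have h1 := kp_ends (src := src) (tgt := tgt) heb hec p
    have h2 := kp_ends (src := src) (tgt := tgt) heb hec q
    rw [← hpq] at h2
    rcases h1 with ⟨a1, a2⟩ | ⟨a1, a2⟩ <;> rcases h2 with ⟨b1, b2⟩ | ⟨b1, b2⟩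
    · exact ⟨a1.symm.trans b1, a2.symm.trans b2⟩
    · exact absurd (a1.symm.trans b1) (tg_ne hrb hrc _ _)
    · exact absurd (b1.symm.trans a1) (tg_ne hrb hrc _ _)
    · exact ⟨a2.symm.trans b2, a1.symm.trans b1⟩
  obtain ⟨i, s⟩ := p
  obtain ⟨j, t⟩ := q
  have hij : i = j := hr key.1
  subst hij
  have hst : s = t := by
    by_contra hne
    have ht : t = !s := by
      cases s <;> cases t <;> simp_all
    rw [ht] at key
    exact tg_flip hbc i s key.2
  rw [hst]

end GH3

open GH3 in
/-- GH3 (hub lemma for drawings), from the normal form of the drawings of the chosen edges -/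
theorem hub_drawing_of [Fintype V] (P : PreDrawing src tgt) (hG : P.Good)
    (hne : ∀ e, src e ≠ tgt e) {ι : Type} [Fintype ι] [Nonempty ι] (r b c : ι → V)
    (eb ec : ι → E)
    (heb : ∀ i, (src (eb i) = r i ∧ tgt (eb i) = b i) ∨ (src (eb i) = b i ∧ tgt (eb i) = r i))
    (hec : ∀ i, (src (ec i) = r i ∧ tgt (ec i) = c i) ∨ (src (ec i) = c i ∧ tgt (ec i) = r i))
    (hr : Function.Injective r) (hrb : ∀ i j, r i ≠ b j) (hrc : ∀ i j, r i ≠ c j)
    (hbc : ∀ i, b i ≠ c i)
    (hpair : ∀ i j, i ≠ j → ¬ (b i = b j ∧ c i = c j) ∧ ¬ (b i = c j ∧ c i = b j))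
    (hcr : ∀ i j, ∀ e ∈ ({eb i, ec i} : Set E), ∀ f ∈ ({eb j, ec j} : Set E), e ≠ f →
      ∀ x, x ∈ ipts P e → x ∉ ipts P f)
    (hred : ∀ P' : PreDrawing (fun p : ι × Bool => r p.1) (tg b c),
      ∃ P'' : PreDrawing (fun p : ι × Bool => r p.1) (tg b c), (∀ d, P''.Used d) ∧
        ∃ j : P'.X → P''.X, Function.Injective j ∧
          ∀ e, ipts P'' e = ((ipts P' e).filter (fun x => decide (2 ≤ P'.passes x))).map j) :
    ∃ v, 1 ≤ (univ.filter (fun i => b i = v ∨ c i = v)).card ∧
      (univ.filter (fun i => b i = v ∨ c i = v)).card ≤ 6 := by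
  have hκ : Function.Injective (kp eb ec) := kp_inj heb hec hr hrb hrc hbc
  have hmem : ∀ p : ι × Bool, kp eb ec p ∈ ({eb p.1, ec p.1} : Set E) := by
    rintro ⟨i, s⟩
    cases s
    · exact Set.mem_insert _ _
    · exact Set.mem_insert_of_mem _ rfl
  -- the drawing of the chosen edges
  obtain ⟨P', j, hj⟩ := exists_pull (src' := fun p : ι × Bool => r p.1) (tgt' := tg b c) P hne
    (kp eb ec) hκ (by
      intro p
      rcases kp_ends (src := src) (tgt := tgt) heb hec p with ⟨h1, h2⟩ | ⟨h1, h2⟩
      · exact Or.inl ⟨h1.symm, h2.symm⟩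
      · exact Or.inr ⟨h2.symm, h1.symm⟩)
  have hcount : ∀ (p : ι × Bool) (x : P.X), (ipts P' p).count (j x) =
      (ipts P (kp eb ec p)).count x := by
    intro p x
    rw [(hj p).count_eq, List.count_map_of_injective _ _ j.injective]
  have hpass : ∀ x', P'.passes x' ≤ 1 := by
    intro x'
    obtain ⟨x, rfl⟩ := j.surjective x'
    have e1 : P'.passes (j x) = ∑ p : ι × Bool, (ipts P (kp eb ec p)).count x := by
      unfold PreDrawing.passes
      exact Finset.sum_congr rfl fun p _ => hcount p x
    rw [e1]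
    by_cases hex : ∃ p : ι × Bool, x ∈ ipts P (kp eb ec p)
    · obtain ⟨p, hp⟩ := hex
      have hz : ∀ q ∈ (univ : Finset (ι × Bool)), q ≠ p → (ipts P (kp eb ec q)).count x = 0 := by
        intro q _ hqp
        rw [List.count_eq_zero]
        exact hcr p.1 q.1 _ (hmem p) _ (hmem q) (fun h => hqp (hκ h).symm) x hp
      rw [Finset.sum_eq_single p hz (fun h => absurd (mem_univ _) h)]
      exact List.nodup_iff_count_le_one.1 (hG.self _) x
    · push Not at hex
      rw [Finset.sum_eq_zero (fun p _ => List.count_eq_zero.2 (hex p))]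
      exact zero_le_one
  have hne' : ∀ p : ι × Bool, r p.1 ≠ tg b c p := fun p => tg_ne hrb hrc _ _
  obtain ⟨D, _, σ, α, en, cc, hpl, hα, hαne, hen, hends, hall, hcc, -⟩ :=
    exists_plane_map_of P' hne' hpass (hred P')
  have hsrc : ∀ p : ι × Bool, en (cc p) = r p.1 := fun p => (hends p).1
  have htgt : ∀ p : ι × Bool, en (α (cc p)) = tg b c p := fun p => (hends p).2
  have : Nonempty D := ⟨cc (Classical.arbitrary ι, false)⟩
  -- darts at representatives
  have hrepdart : ∀ d i, en d = r i → ∃ s, d = cc (i, s) := by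
    intro d i hd
    obtain ⟨⟨k, s⟩, h | h⟩ := hall d
    · have h1 : r k = r i := by
        rw [← hd, h]
        exact (hsrc (k, s)).symm
      have h2 : k = i := hr h1
      subst h2
      exact ⟨s, h⟩
    · exfalso
      rw [h, htgt] at hd
      exact tg_ne hrb hrc i _ hd.symm
  have hfix : ∀ (i : ι) (s : Bool), σ (cc (i, s)) = cc (i, !s) := by
    intro i s
    have h1 : en (σ (cc (i, s))) = r i := by
      have h2 : en (σ (cc (i, s))) = en (cc (i, s)) := by
        rw [hen]
        exact (SameCycle.refl _ _).apply_left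
      rw [h2]
      exact hsrc (i, s)
    obtain ⟨t, ht⟩ := hrepdart _ _ h1
    have hts : t = !s := by
      by_contra hne2
      have ht' : t = s := by
        cases s <;> cases t <;> simp_all
      rw [ht'] at ht
      have h3 : σ.SameCycle (cc (i, s)) (cc (i, !s)) := by
        rw [← hen, hsrc, hsrc]
      obtain ⟨k, hk⟩ := h3
      have h4 : (σ ^ k) (cc (i, s)) = cc (i, s) := by
        have : Function.IsFixedPt σ (cc (i, s)) := ht
        exact this.perm_zpow k
      rw [h4] at hk
      have h5 := hcc hk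
      have h6 : s = !s := congrArg Prod.snd h5
      cases s <;> simp at h6
    rw [ht, hts]
  obtain ⟨v, hv, hv1, hv6⟩ := hub_map hpl hα hαne en hen (fun v => ∃ i, v = r i)
    (by
      intro d
      obtain ⟨p, h | h⟩ := hall d
      · constructor
        · rintro - ⟨k, hk⟩
          rw [h, htgt] at hk
          exact tg_ne hrb hrc k p hk.symm
        · intro _
          exact ⟨p.1, by rw [h, hsrc]⟩
      · constructor
        · rintro ⟨k, hk⟩
          rw [h, htgt] at hk
          exact absurd hk.symm (tg_ne hrb hrc k p)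
        · intro hn
          exfalso
          apply hn
          exact ⟨p.1, by rw [h, hα, hsrc]⟩)
    (by
      rintro d ⟨i, hi⟩
      obtain ⟨s, rfl⟩ := hrepdart d i hi
      rw [hfix, hfix]
      constructor
      · intro h
        have h6 : (!s) = s := congrArg Prod.snd (hcc h)
        cases s <;> simp at h6
      · rw [Bool.not_not])
    (by
      rintro d ⟨i, hi⟩
      obtain ⟨s, rfl⟩ := hrepdart d i hi
      rw [hfix, htgt, htgt]
      exact tg_flip hbc i s)
    (by
      rintro d d' ⟨i, hi⟩ ⟨k, hk⟩ h1 h2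
      obtain ⟨s, rfl⟩ := hrepdart d i hi
      obtain ⟨t, rfl⟩ := hrepdart d' k hk
      rw [hfix, hfix, htgt, htgt] at h2
      rw [htgt, htgt] at h1
      rw [hsrc, hsrc]
      by_contra hne3
      have hik : i ≠ k := fun h => hne3 (by rw [h])
      obtain ⟨q1, q2⟩ := hpair i k hik
      cases s <;> cases t
      · exact q1 ⟨h1, h2⟩
      · exact q2 ⟨h1, h2⟩
      · exact q2 ⟨h2, h1⟩
      · exact q1 ⟨h2, h1⟩)
  -- darts at the hub
  have hcard : (univ.filter (fun i => b i = v ∨ c i = v)).card =
      (univ.filter (fun d => en d = v)).card := by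
    have hF : Function.Injective (fun i => α (cc (i, if b i = v then false else true))) := by
      intro i k hik
      have h1 := hcc (α.injective hik)
      exact congrArg Prod.fst h1
    rw [← Finset.card_image_of_injective _ hF]
    congr 1
    ext d
    simp only [Finset.mem_image, Finset.mem_filter, Finset.mem_univ, true_and]
    constructor
    · rintro ⟨i, hi, rfl⟩
      rw [htgt]
      by_cases hb : b i = v
      · rw [if_pos hb]
        exact hb
      · rw [if_neg hb]
        rcases hi with hi | hi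
        · exact absurd hi hb
        · exact hi
    · intro hd
      obtain ⟨⟨i, s⟩, h | h⟩ := hall d
      · exfalso
        apply hv
        exact ⟨i, by rw [← hd, h, hsrc]⟩
      · have h1 : tg b c (i, s) = v := by rw [← hd, h, htgt]
        cases s
        · have h2 : b i = v := h1
          exact ⟨i, Or.inl h2, by rw [if_pos h2, h]⟩
        · have h2 : c i = v := h1
          have h3 : ¬ b i = v := fun h4 => hbc i (h4.trans h2.symm)
          exact ⟨i, Or.inr h2, by rw [if_neg h3, h]⟩
  exact ⟨v, hcard ▸ hv1, hcard ▸ hv6⟩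

end Helper5.BD
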